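import Mathlib

/-!
For every `c > 0` there is a graph on `n` vertices that contains a clique on `k` vertices and
whose threshold probability for random zero forcing sets is less than `c * sqrt (k / n)`.
-/

namespace Pool.Agent.Results.MP_4451bf_co.SmallThreshold

open Filter

/-- The vertices that become blue, if the vertices in `B` are blue at the start: a blue vertex
`u` forces its neighbour `v` if all other neighbours of `u` are blue. -/
inductive Blue {V : Type} (G : SimpleGraph V) (B : Finset V) : V → Prop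
  | base (v : V) : v ∈ B → Blue G B v
  | step (u v : V) : Blue G B u → G.Adj u v → (∀ w, G.Adj u w → w ≠ v → Blue G B w) → Blue G B v

/-- Zero forcing sets. -/
def ZF {V : Type} (G : SimpleGraph V) (B : Finset V) : Prop := ∀ v, Blue G B v

open Classical in
/-- The probability that the random vertex set, which contains each vertex independently with
probability `p`, is a zero forcing set. -/
noncomputable def prob {V : Type} [Fintype V] (G : SimpleGraph V) (p : ℝ) : ℝ :=
  ∑ B : Finset V with ZF G B, p ^ B.card * (1 - p) ^ (Fintype.card V - B.card)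

/-- `p` is the threshold probability. -/
def IsThreshold {V : Type} [Fintype V] (G : SimpleGraph V) (p : ℝ) : Prop :=
  0 ≤ p ∧ p ≤ 1 ∧ prob G p = 1 / 2

/-! ### Probabilities -/

section probability

variable {V : Type} [Fintype V] [DecidableEq V]

/-- The weight of a set. -/
noncomputable def wt (p : ℝ) (B : Finset V) : ℝ := p ^ B.card * (1 - p) ^ (Fintype.card V - B.card)

omit [DecidableEq V] in
theorem wt_nonneg {p : ℝ} (h0 : 0 ≤ p) (h1 : p ≤ 1) (B : Finset V) : 0 ≤ wt p B :=
  mul_nonneg (pow_nonneg h0 _) (pow_nonneg (by linarith) _)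

theorem contain (p : ℝ) (U : Finset V) :
    ∑ B : Finset V, (if U ⊆ B then wt p B else 0) = p ^ U.card := by
  have h := Finset.prod_add (fun _ : V => p) (fun v => if v ∈ U then 0 else 1 - p) Finset.univ
  have h1 : ∏ v : V, (p + if v ∈ U then 0 else 1 - p) = p ^ U.card := by
    rw [← Finset.prod_subset (Finset.subset_univ U)]
    · rw [Finset.prod_congr rfl (g := fun _ => p), Finset.prod_const]
      intro v hv
      rw [if_pos hv, add_zero]
    · intro v _ hv
      rw [if_neg hv]
      ring
  rw [h1] at h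
  rw [h, Finset.powerset_univ]
  refine Finset.sum_congr rfl fun B _ => ?_
  rw [Finset.prod_const]
  by_cases hU : U ⊆ B
  · rw [if_pos hU]
    unfold wt
    congr 1
    rw [Finset.prod_congr rfl (g := fun _ => 1 - p), Finset.prod_const, Finset.card_sdiff_of_subset
      (Finset.subset_univ B), Finset.card_univ]
    intro v hv
    rw [if_neg]
    intro h2
    exact (Finset.mem_sdiff.1 hv).2 (hU h2)
  · rw [if_neg hU]
    rw [Finset.not_subset] at hU
    obtain ⟨v, hv, hvB⟩ := hU
    symm
    apply mul_eq_zero_of_right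
    refine Finset.prod_eq_zero (i := v) ?_ (if_pos hv)
    exact Finset.mem_sdiff.2 ⟨Finset.mem_univ _, hvB⟩

theorem total (p : ℝ) : ∑ B : Finset V, wt p B = 1 := by
  have h := contain (V := V) p ∅
  simpa using h

theorem avoid (p : ℝ) {C : Type} [Fintype C] [DecidableEq C] (S : C → Finset V) (s : ℕ)
    (hS : ∀ c, (S c).card = s) (hdis : ∀ c d, c ≠ d → Disjoint (S c) (S d)) :
    ∑ B : Finset V, (if ∀ c, ¬ S c ⊆ B then wt p B else 0) = (1 - p ^ s) ^ Fintype.card C := by
  have h1 : ∀ B : Finset V, (if ∀ c, ¬ S c ⊆ B then wt p B else 0) =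
      ∑ t : Finset C, (-1) ^ t.card * (if t.biUnion S ⊆ B then wt p B else 0) := by
    intro B
    have h2 := Finset.prod_add (fun c : C => -(if S c ⊆ B then (1 : ℝ) else 0)) (fun _ => 1)
      Finset.univ
    have h3 : ∏ c : C, (-(if S c ⊆ B then (1 : ℝ) else 0) + 1) =
        if ∀ c, ¬ S c ⊆ B then 1 else 0 := by
      by_cases h : ∀ c, ¬ S c ⊆ B
      · rw [if_pos h]
        refine Finset.prod_eq_one fun c _ => ?_
        rw [if_neg (h c)]; ring
      · rw [if_neg h]
        push Not at h
        obtain ⟨c, hc⟩ := h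
        refine Finset.prod_eq_zero (Finset.mem_univ c) ?_
        rw [if_pos hc]; ring
    have h4 : ∀ t : Finset C, ∏ c ∈ t, (-(if S c ⊆ B then (1 : ℝ) else 0)) =
        (-1) ^ t.card * (if t.biUnion S ⊆ B then 1 else 0) := by
      intro t
      rw [Finset.prod_neg]
      congr 1
      by_cases h : t.biUnion S ⊆ B
      · rw [if_pos h]
        refine Finset.prod_eq_one fun c hc => ?_
        rw [if_pos ((Finset.subset_biUnion_of_mem S hc).trans h)]
      · rw [if_neg h]
        rw [Finset.biUnion_subset] at h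
        push Not at h
        obtain ⟨c, hc, hcB⟩ := h
        exact Finset.prod_eq_zero hc (if_neg hcB)
    rw [h3] at h2
    have h5 : (if ∀ c, ¬ S c ⊆ B then wt p B else 0) =
        (if ∀ c, ¬ S c ⊆ B then (1 : ℝ) else 0) * wt p B := by
      split_ifs <;> ring
    rw [h5, h2, Finset.powerset_univ, Finset.sum_mul]
    refine Finset.sum_congr rfl fun t _ => ?_
    rw [h4 t, Finset.prod_const_one, mul_one, mul_assoc, ite_mul, one_mul, zero_mul]
  simp only [h1]
  rw [Finset.sum_comm]
  simp only [← Finset.mul_sum, contain]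
  have h6 := Finset.prod_add (fun _ : C => -p ^ s) (fun _ => 1) Finset.univ
  rw [Finset.prod_const, Finset.powerset_univ, Finset.card_univ] at h6
  have h7 : (1 - p ^ s) ^ Fintype.card C = (-p ^ s + 1) ^ Fintype.card C := by ring
  rw [h7, h6]
  refine Finset.sum_congr rfl fun t _ => ?_
  rw [Finset.prod_const, Finset.prod_const_one, mul_one]
  have h8 : (t.biUnion S).card = s * t.card := by
    rw [Finset.card_biUnion fun c _ d _ hcd => hdis c d hcd]
    simp [hS, mul_comm]
  rw [h8, pow_mul, ← mul_pow]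
  congr 1
  ring

end probability

/-! ### The graph -/

section graph

/-- The vertices: `J` vertices on each level below `L`, and `J + j` vertices on level `L + j`. -/
abbrev Vt (J L K : ℕ) : Type :=
  {x : Fin (L + K + 1) × Fin (J + K) // (x.2 : ℕ) < J + ((x.1 : ℕ) - L)}

variable {J L K : ℕ}

/-- The level. -/
def lev (v : Vt J L K) : ℕ := v.1.1

/-- The position in the level. -/
def pos (v : Vt J L K) : ℕ := v.1.2

theorem lev_le (v : Vt J L K) : lev v ≤ L + K := Nat.le_of_lt_succ v.1.1.2

theorem pos_lt (v : Vt J L K) : pos v < J + (lev v - L) := v.2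

theorem vext {v w : Vt J L K} (h1 : lev v = lev w) (h2 : pos v = pos w) : v = w :=
  Subtype.ext (Prod.ext (Fin.ext h1) (Fin.ext h2))

theorem exists_vt {l i : ℕ} (hl : l ≤ L + K) (hi : i < J + (l - L)) :
    ∃ v : Vt J L K, lev v = l ∧ pos v = i :=
  ⟨⟨(⟨l, by omega⟩, ⟨i, by omega⟩), hi⟩, rfl, rfl⟩

/-- One half of the adjacency relation. -/
def rel (v w : Vt J L K) : Prop :=
  (lev v + 1 = lev w ∧ (pos v = pos w ∨ (L ≤ lev v ∧ pos v + 1 = pos w))) ∨
    (lev v = L + K ∧ lev w = L + K)

variable (J L K) in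
/-- The graph. -/
def GR : SimpleGraph (Vt J L K) := SimpleGraph.fromRel rel

theorem adj_iff {v w : Vt J L K} : (GR J L K).Adj v w ↔ v ≠ w ∧ (rel v w ∨ rel w v) := by
  rw [GR, SimpleGraph.fromRel_adj]

variable {B : Finset (Vt J L K)}

/-- Forcing, in a convenient form. -/
theorem force {u v : Vt J L K} (hu : Blue (GR J L K) B u) (hne : u ≠ v)
    (h : rel u v ∨ rel v u) (hall : ∀ w, w ≠ v → (rel u w ∨ rel w u) → Blue (GR J L K) B w) :
    Blue (GR J L K) B v :=
  Blue.step u v hu (adj_iff.2 ⟨hne, h⟩) fun w hw hwv => hall w hwv (adj_iff.1 hw).2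

/-- All vertices with given level and position are blue. -/
def D (B : Finset (Vt J L K)) (l i : ℕ) : Prop :=
  ∀ v : Vt J L K, lev v = l → pos v = i → Blue (GR J L K) B v

theorem D_of_vt {v : Vt J L K} (h : Blue (GR J L K) B v) : D B (lev v) (pos v) := by
  intro w h1 h2
  rwa [vext h1 h2]

/-- Forcing along a path, towards the grid. -/
theorem path_down {l i : ℕ} (hl : l < L) (hi : i < J) (h0 : D B l i)
    (h1 : l = 0 ∨ D B (l - 1) i) : D B (l + 1) i := by
  intro v hv1 hv2
  obtain ⟨u, hu1, hu2⟩ : ∃ u : Vt J L K, lev u = l ∧ pos u = i := exists_vt (by omega) (by omega)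
  refine force (h0 u hu1 hu2) ?_ (Or.inl (Or.inl ⟨by omega, Or.inl (by omega)⟩)) ?_
  · rintro rfl; omega
  · intro w hwv h
    rcases h with (⟨h2, h3 | ⟨h3, h4⟩⟩ | ⟨h2, h3⟩) | (⟨h2, h3 | ⟨h3, h4⟩⟩ | ⟨h2, h3⟩)
    · exact absurd (vext (by omega) (by omega)) hwv
    · omega
    · omega
    · rcases h1 with rfl | h1
      · omega
      · exact h1 w (by omega) (by omega)
    · omega
    · omega

/-- Forcing along a path, away from the grid. -/
theorem path_up {l i : ℕ} (hl : l + 1 < L) (hi : i < J) (h0 : D B (l + 1) i)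
    (h1 : D B (l + 2) i) : D B l i := by
  intro v hv1 hv2
  obtain ⟨u, hu1, hu2⟩ : ∃ u : Vt J L K, lev u = l + 1 ∧ pos u = i :=
    exists_vt (by omega) (by omega)
  refine force (h0 u hu1 hu2) ?_ (Or.inr (Or.inl ⟨by omega, Or.inl (by omega)⟩)) ?_
  · rintro rfl; omega
  · intro w hwv h
    rcases h with (⟨h2, h3 | ⟨h3, h4⟩⟩ | ⟨h2, h3⟩) | (⟨h2, h3 | ⟨h3, h4⟩⟩ | ⟨h2, h3⟩)
    · exact h1 w (by omega) (by omega)
    · omega
    · omega
    · exact absurd (vext (by omega) (by omega)) hwv
    · omega
    · omega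

theorem path_all {a i : ℕ} (ha : a + 1 < L) (hi : i < J) (h0 : D B a i) (h1 : D B (a + 1) i) :
    ∀ l, l ≤ L → D B l i := by
  have hup : ∀ b, D B (a + b) i ∧ D B (a + b + 1) i ∨ L < a + b + 1 := by
    intro b
    induction b with
    | zero => exact Or.inl ⟨h0, h1⟩
    | succ b ih =>
      rcases ih with ⟨h2, h3⟩ | h2
      · by_cases hb : a + b + 1 < L
        · left
          refine ⟨h3, ?_⟩
          exact path_down (l := a + b + 1) hb hi h3 (Or.inr h2)
        · right; omega
      · right; omega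
  have hdown : ∀ b, b ≤ a → D B (a - b) i ∧ D B (a - b + 1) i := by
    intro b
    induction b with
    | zero => intro _; exact ⟨h0, h1⟩
    | succ b ih =>
      intro hb
      obtain ⟨h2, h3⟩ := ih (by omega)
      have e1 : a - b = a - (b + 1) + 1 := by omega
      rw [e1] at h2 h3
      exact ⟨path_up (l := a - (b + 1)) (by omega) hi h2 h3, h2⟩
  intro l hl
  by_cases hla : l ≤ a
  · have := (hdown (a - l) (by omega)).1
    rwa [show a - (a - l) = l from by omega] at this
  · rcases hup (l - a - 1) with h | h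
    · have := h.2
      rwa [show a + (l - a - 1) + 1 = l from by omega] at this
    · omega

/-- Forcing in the grid. -/
theorem grid {l : ℕ} (hl1 : L ≤ l) (hl2 : l < L + K)
    (hprev : ∀ i, D B (l - 1) i) (hcur : ∀ i, D B l i) {i₀ : ℕ} (hi₀ : i₀ < J + (l + 1 - L))
    (h0 : D B (l + 1) i₀) : ∀ i, D B (l + 1) i := by
  -- a vertex on level `l` forces one of its two neighbours on level `l + 1`
  have key : ∀ i, i < J + (l - L) → (D B (l + 1) i ↔ D B (l + 1) (i + 1)) := by
    intro i hi
    obtain ⟨u, hu1, hu2⟩ : ∃ u : Vt J L K, lev u = l ∧ pos u = i :=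
      exists_vt (by omega) (by omega)
    have hu := hcur i u hu1 hu2
    constructor
    · intro h1 v hv1 hv2
      refine force hu ?_ (Or.inl (Or.inl ⟨by omega, Or.inr ⟨by omega, by omega⟩⟩)) ?_
      · rintro rfl; omega
      · intro w hwv h
        rcases h with (⟨h2, h3 | ⟨h3, h4⟩⟩ | ⟨h2, h3⟩) | (⟨h2, h3 | ⟨h3, h4⟩⟩ | ⟨h2, h3⟩)
        · exact h1 w (by omega) (by omega)
        · exact absurd (vext (by omega) (by omega)) hwv
        · omega
        · exact hprev (pos w) w (by omega) rfl
        · exact hprev (pos w) w (by omega) rfl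
        · omega
    · intro h1 v hv1 hv2
      refine force hu ?_ (Or.inl (Or.inl ⟨by omega, Or.inl (by omega)⟩)) ?_
      · rintro rfl; omega
      · intro w hwv h
        rcases h with (⟨h2, h3 | ⟨h3, h4⟩⟩ | ⟨h2, h3⟩) | (⟨h2, h3 | ⟨h3, h4⟩⟩ | ⟨h2, h3⟩)
        · exact absurd (vext (by omega) (by omega)) hwv
        · exact h1 w (by omega) (by omega)
        · omega
        · exact hprev (pos w) w (by omega) rfl
        · exact hprev (pos w) w (by omega) rfl
        · omega
  have hto0 : ∀ i, i < J + (l + 1 - L) → (D B (l + 1) i ↔ D B (l + 1) 0) := by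
    intro i
    induction i with
    | zero => intro _; exact Iff.rfl
    | succ i ih =>
      intro hi
      exact (key i (by omega)).symm.trans (ih (by omega))
  have h00 := (hto0 i₀ hi₀).1 h0
  intro i
  by_cases hi : i < J + (l + 1 - L)
  · exact (hto0 i hi).2 h00
  · intro v hv1 hv2
    have := pos_lt v
    omega

/-- A sufficient condition for zero forcing. -/
theorem zf_of (hL : 1 < L)
    (hE : ∀ i, i < J → ∃ a, a + 1 < L ∧ D B a i ∧ D B (a + 1) i)
    (hF : ∀ j, j < K → ∃ i, i < J ∧ D B (L + j + 1) i) : ZF (GR J L K) B := by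
  have h1 : ∀ l, l ≤ L → ∀ i, D B l i := by
    intro l hl i
    by_cases hi : i < J
    · obtain ⟨a, ha, h2, h3⟩ := hE i hi
      exact path_all ha hi h2 h3 l hl
    · intro v hv1 hv2
      have := pos_lt v
      omega
  have h2 : ∀ j, j ≤ K → (∀ i, D B (L + j) i) ∧ (∀ i, D B (L + j - 1) i) := by
    intro j
    induction j with
    | zero => intro _; exact ⟨h1 L le_rfl, h1 (L - 1) (by omega)⟩
    | succ j ih =>
      intro hj
      obtain ⟨h3, h4⟩ := ih (by omega)
      obtain ⟨i, hi, h5⟩ := hF j (by omega)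
      exact ⟨grid (l := L + j) (by omega) (by omega) h4 h3 (by omega) h5, h3⟩
  intro v
  have hv := lev_le v
  by_cases hvl : lev v ≤ L
  · exact h1 _ hvl _ v rfl rfl
  · have h3 := (h2 (lev v - L) (by omega)).1 (pos v)
    rw [show L + (lev v - L) = lev v from by omega] at h3
    exact h3 v rfl rfl

theorem clique : ∃ s : Finset (Vt J L K), (GR J L K).IsNClique (J + K) s := by
  classical
  let f : Fin (J + K) → Vt J L K := fun i => ⟨(⟨L + K, by omega⟩, i), by
    show (i : ℕ) < J + (L + K - L)
    have := i.2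
    omega⟩
  have hf : Function.Injective f := by
    intro i j h
    exact congrArg (fun v : Vt J L K => v.1.2) h
  refine ⟨Finset.univ.image f, ?_, ?_⟩
  · intro x hx y hy hxy
    obtain ⟨i, -, rfl⟩ := Finset.mem_image.1 hx
    obtain ⟨j, -, rfl⟩ := Finset.mem_image.1 hy
    exact adj_iff.2 ⟨hxy, Or.inl (Or.inr ⟨rfl, rfl⟩)⟩
  · rw [Finset.card_image_of_injective _ hf, Finset.card_univ, Fintype.card_fin]

theorem card_vt_le : Fintype.card (Vt J L K) ≤ L * J + (K + 1) * (J + K) := by
  classical
  let f : Vt J L K → (Fin L × Fin J) ⊕ (Fin (K + 1) × Fin (J + K)) := fun v =>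
    if h : lev v < L then Sum.inl (⟨lev v, h⟩, ⟨pos v, by have := pos_lt v; omega⟩)
    else Sum.inr (⟨lev v - L, by have := lev_le v; omega⟩, v.1.2)
  have hf : Function.Injective f := by
    intro v w h
    by_cases hv : lev v < L <;> by_cases hw : lev w < L
    · simp only [f, dif_pos hv, dif_pos hw] at h
      have h1 := Sum.inl.inj h
      exact vext (congrArg (fun p => (p.1 : ℕ)) h1) (congrArg (fun p => (p.2 : ℕ)) h1)
    · simp only [f, dif_pos hv, dif_neg hw] at h
      cases h
    · simp only [f, dif_neg hv, dif_pos hw] at h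
      cases h
    · simp only [f, dif_neg hv, dif_neg hw] at h
      have h1 := Sum.inr.inj h
      have h2 : lev v - L = lev w - L := congrArg (fun p => (p.1 : ℕ)) h1
      have h3 : v.1.2 = w.1.2 := congrArg (fun p => p.2) h1
      exact vext (by omega) (congrArg Fin.val h3)
  have h := Fintype.card_le_of_injective f hf
  simpa using h

end graph

/-! ### The estimate -/

section estimate

variable {J L K : ℕ}

theorem prob_ge {p : ℝ} (h0 : 0 ≤ p) (h1 : p ≤ 1) {M : ℕ} (hM : 1 ≤ M) (hL : L = 2 * M) :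
    1 - (J * (1 - p ^ 2) ^ M + K * (1 - p) ^ J) ≤ prob (GR J L K) p := by
  classical
  -- the bad events
  let SE : Fin J → Fin M → Finset (Vt J L K) := fun i c =>
    Finset.univ.filter fun v => (lev v = 2 * (c : ℕ) ∨ lev v = 2 * (c : ℕ) + 1) ∧ pos v = (i : ℕ)
  let SF : Fin K → Fin J → Finset (Vt J L K) := fun j c =>
    Finset.univ.filter fun v => lev v = L + (j : ℕ) + 1 ∧ pos v = (c : ℕ)
  have hSE : ∀ i c, (SE i c).card = 2 := by
    intro i c
    have hi := i.2
    have hc := c.2
    obtain ⟨v, hv1, hv2⟩ : ∃ v : Vt J L K, lev v = 2 * (c : ℕ) ∧ pos v = (i : ℕ) :=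
      exists_vt (by omega) (by omega)
    obtain ⟨w, hw1, hw2⟩ : ∃ v : Vt J L K, lev v = 2 * (c : ℕ) + 1 ∧ pos v = (i : ℕ) :=
      exists_vt (by omega) (by omega)
    have h2 : SE i c = {v, w} := by
      ext u
      simp only [SE, Finset.mem_filter, Finset.mem_univ, true_and, Finset.mem_insert,
        Finset.mem_singleton]
      constructor
      · rintro ⟨h3 | h3, h4⟩
        · exact Or.inl (vext (by omega) (by omega))
        · exact Or.inr (vext (by omega) (by omega))
      · rintro (rfl | rfl)
        · exact ⟨Or.inl hv1, hv2⟩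
        · exact ⟨Or.inr hw1, hw2⟩
    rw [h2, Finset.card_pair]
    rintro rfl
    omega
  have hSF : ∀ j c, (SF j c).card = 1 := by
    intro j c
    have hj := j.2
    have hc := c.2
    obtain ⟨v, hv1, hv2⟩ : ∃ v : Vt J L K, lev v = L + (j : ℕ) + 1 ∧ pos v = (c : ℕ) :=
      exists_vt (by omega) (by omega)
    have h2 : SF j c = {v} := by
      ext u
      simp only [SF, Finset.mem_filter, Finset.mem_univ, true_and, Finset.mem_singleton]
      constructor
      · rintro ⟨h3, h4⟩
        exact vext (by omega) (by omega)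
      · rintro rfl
        exact ⟨hv1, hv2⟩
    rw [h2, Finset.card_singleton]
  have hE : ∀ i, ∑ B : Finset (Vt J L K), (if ∀ c, ¬ SE i c ⊆ B then wt p B else 0) =
      (1 - p ^ 2) ^ M := by
    intro i
    have h2 := avoid p (SE i) 2 (hSE i) (by
      intro c d hcd
      rw [Finset.disjoint_left]
      intro v hv hv'
      simp only [SE, Finset.mem_filter, Finset.mem_univ, true_and] at hv hv'
      apply hcd
      apply Fin.ext
      omega)
    rw [Fintype.card_fin] at h2
    rw [← h2]
    refine Finset.sum_congr rfl fun B _ => ?_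
    split_ifs <;> rfl
  have hF : ∀ j, ∑ B : Finset (Vt J L K), (if ∀ c, ¬ SF j c ⊆ B then wt p B else 0) =
      (1 - p) ^ J := by
    intro j
    have h2 := avoid p (SF j) 1 (hSF j) (by
      intro c d hcd
      rw [Finset.disjoint_left]
      intro v hv hv'
      simp only [SF, Finset.mem_filter, Finset.mem_univ, true_and] at hv hv'
      apply hcd
      apply Fin.ext
      omega)
    rw [Fintype.card_fin, pow_one] at h2
    rw [← h2]
    refine Finset.sum_congr rfl fun B _ => ?_
    split_ifs <;> rfl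
  have hkey : ∀ B : Finset (Vt J L K), wt p B ≤ (if ZF (GR J L K) B then wt p B else 0) +
      (∑ i : Fin J, (if ∀ c, ¬ SE i c ⊆ B then wt p B else 0) +
        ∑ j : Fin K, (if ∀ c, ¬ SF j c ⊆ B then wt p B else 0)) := by
    intro B
    have hw := wt_nonneg h0 h1 B
    have hn1 : 0 ≤ ∑ i : Fin J, (if ∀ c, ¬ SE i c ⊆ B then wt p B else 0) :=
      Finset.sum_nonneg fun i _ => by split_ifs <;> simp [hw]
    have hn2 : 0 ≤ ∑ j : Fin K, (if ∀ c, ¬ SF j c ⊆ B then wt p B else 0) :=
      Finset.sum_nonneg fun i _ => by split_ifs <;> simp [hw]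
    by_cases hz : ZF (GR J L K) B
    · rw [if_pos hz]; linarith
    · rw [if_neg hz, zero_add]
      by_cases hbad : ∃ i, ∀ c, ¬ SE i c ⊆ B
      · obtain ⟨i, hi⟩ := hbad
        have h2 : wt p B ≤ ∑ i : Fin J, (if ∀ c, ¬ SE i c ⊆ B then wt p B else 0) := by
          have h3 := Finset.single_le_sum (f := fun i : Fin J =>
            (if ∀ c, ¬ SE i c ⊆ B then wt p B else 0)) (s := Finset.univ)
            (fun i _ => by split_ifs <;> simp [hw]) (Finset.mem_univ i)
          simp only [if_pos hi] at h3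
          exact h3
        linarith
      · by_cases hbad2 : ∃ j, ∀ c, ¬ SF j c ⊆ B
        · obtain ⟨j, hj⟩ := hbad2
          have h2 : wt p B ≤ ∑ j : Fin K, (if ∀ c, ¬ SF j c ⊆ B then wt p B else 0) := by
            have h3 := Finset.single_le_sum (f := fun j : Fin K =>
              (if ∀ c, ¬ SF j c ⊆ B then wt p B else 0)) (s := Finset.univ)
              (fun i _ => by split_ifs <;> simp [hw]) (Finset.mem_univ j)
            simp only [if_pos hj] at h3
            exact h3
          linarith
        · exfalso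
          push Not at hbad hbad2
          apply hz
          refine zf_of (by omega) ?_ ?_
          · intro i hi
            obtain ⟨c, hc⟩ := hbad ⟨i, hi⟩
            have hcM := c.2
            refine ⟨2 * (c : ℕ), by omega, ?_, ?_⟩
            · intro v hv1 hv2
              refine Blue.base v (hc ?_)
              simp only [SE, Finset.mem_filter, Finset.mem_univ, true_and]
              exact ⟨Or.inl hv1, hv2⟩
            · intro v hv1 hv2
              refine Blue.base v (hc ?_)
              simp only [SE, Finset.mem_filter, Finset.mem_univ, true_and]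
              exact ⟨Or.inr hv1, hv2⟩
          · intro j hj
            obtain ⟨c, hc⟩ := hbad2 ⟨j, hj⟩
            refine ⟨c, c.2, ?_⟩
            intro v hv1 hv2
            refine Blue.base v (hc ?_)
            simp only [SF, Finset.mem_filter, Finset.mem_univ, true_and]
            exact ⟨hv1, hv2⟩
  have hsum := Finset.sum_le_sum fun B (_ : B ∈ (Finset.univ : Finset (Finset (Vt J L K)))) =>
    hkey B
  rw [total, Finset.sum_add_distrib, Finset.sum_add_distrib, Finset.sum_comm (s := Finset.univ)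
    (t := (Finset.univ : Finset (Fin J))), Finset.sum_comm (s := Finset.univ)
    (t := (Finset.univ : Finset (Fin K)))] at hsum
  simp only [hE, hF, Finset.sum_const, Finset.card_univ, Fintype.card_fin, nsmul_eq_mul] at hsum
  have hprob : prob (GR J L K) p =
      ∑ B : Finset (Vt J L K), (if ZF (GR J L K) B then wt p B else 0) := by
    unfold prob
    rw [Finset.sum_filter]
    rfl
  rw [hprob]
  linarith

end estimate

/-! ### Existence of the threshold -/

section threshold

variable {V : Type} [Fintype V] [Nonempty V] (G : SimpleGraph V)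

omit [Fintype V] in
theorem not_zf_empty : ¬ ZF G ∅ := by
  intro h
  obtain ⟨v⟩ := (inferInstance : Nonempty V)
  have key : ∀ v, Blue G ∅ v → False := by
    intro v hv
    induction hv with
    | base v hv => exact absurd hv (Finset.notMem_empty v)
    | step u v _ _ _ ih _ => exact ih
  exact key v (h v)

theorem exists_threshold : ∃ p, IsThreshold G p := by
  classical
  have hcont : Continuous (prob G) := by
    unfold prob
    fun_prop
  have h0 : prob G 0 = 0 := by
    unfold prob
    refine Finset.sum_eq_zero fun B hB => ?_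
    have hB' : B ≠ ∅ := by
      rintro rfl
      exact not_zf_empty G (Finset.mem_filter.1 hB).2
    rw [zero_pow (Finset.card_ne_zero.2 (Finset.nonempty_iff_ne_empty.2 hB')), zero_mul]
  have h1 : prob G 1 = 1 := by
    unfold prob
    rw [Finset.sum_eq_single Finset.univ]
    · simp
    · intro B _ hB
      have h2 : B.card < Fintype.card V := by
        rw [← Finset.card_univ]
        exact Finset.card_lt_card (Finset.ssubset_univ_iff.2 hB)
      rw [sub_self, zero_pow (by omega), mul_zero]
    · intro h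
      exfalso
      apply h
      rw [Finset.mem_filter]
      exact ⟨Finset.mem_univ _, fun v => Blue.base v (Finset.mem_univ v)⟩
  have h2 := intermediate_value_Icc (zero_le_one) hcont.continuousOn
  obtain ⟨p, hp, hp2⟩ := h2 (show (1 / 2 : ℝ) ∈ Set.Icc (prob G 0) (prob G 1) by
    rw [h0, h1]; constructor <;> norm_num)
  exact ⟨p, hp.1, hp.2, hp2⟩

end threshold

/-- For every `c > 0` there is a graph on `n` vertices containing a clique on `k` vertices whose
threshold probability is less than `c * sqrt (k / n)`. -/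
theorem result : ∀ c : ℝ, 0 < c → ∃ (V : Type) (_ : Fintype V) (G : SimpleGraph V) (k : ℕ),
    1 ≤ k ∧ k ≤ Fintype.card V ∧ (∃ s : Finset V, G.IsNClique k s) ∧
    (∃ p, IsThreshold G p) ∧
    ∀ p, IsThreshold G p → p < c * Real.sqrt ((k : ℝ) / (Fintype.card V : ℝ)) := by
  intro c hc
  -- a large parameter
  have hlim : ∀ m : ℕ, Tendsto (fun r : ℕ => (r : ℝ) ^ m * Real.exp (-(r : ℝ))) atTop (nhds 0) :=
    fun m => (Real.tendsto_pow_mul_exp_neg_atTop_nhds_zero m).comp tendsto_natCast_atTop_atTop
  have e1 := (hlim 5).eventually (gt_mem_nhds (show (0 : ℝ) < 1 / 4 by norm_num))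
  have e2 := (hlim 7).eventually (gt_mem_nhds (show (0 : ℝ) < 1 / 4 by norm_num))
  have e3 : ∀ᶠ r : ℕ in atTop, 3 / c ^ 2 ≤ (r : ℝ) :=
    tendsto_natCast_atTop_atTop.eventually (eventually_ge_atTop _)
  obtain ⟨r, h1, h2, h3, h4⟩ := (e1.and (e2.and (e3.and (eventually_ge_atTop 2)))).exists
  have hr : (0 : ℝ) < r := by exact_mod_cast (by omega : 0 < r)
  have hJ7 : r ^ 5 ≤ r ^ 7 := Nat.pow_le_pow_right (by omega) (by norm_num)
  obtain ⟨K, hK⟩ := Nat.exists_eq_add_of_le hJ7
  let J := r ^ 5
  let M := r ^ 9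
  let L := 2 * M
  have hJ1 : 1 ≤ r ^ 5 := Nat.one_le_pow _ _ (by omega)
  have hM1 : 1 ≤ r ^ 9 := Nat.one_le_pow _ _ (by omega)
  have hJK : J + K = r ^ 7 := hK.symm
  have hcl : ∃ s : Finset (Vt J L K), (GR J L K).IsNClique (r ^ 7) s := by
    rw [← hJK]; exact clique
  have hcard1 : r ^ 7 ≤ Fintype.card (Vt J L K) := by
    obtain ⟨s, hs⟩ := hcl
    rw [← hs.card_eq]
    exact Finset.card_le_univ s
  have hcard2 : Fintype.card (Vt J L K) ≤ 3 * r ^ 14 := by
    refine card_vt_le.trans ?_
    rw [hJK]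
    have h5 : K + 1 ≤ r ^ 7 := by
      have : J + K = r ^ 7 := hJK
      have : J = r ^ 5 := rfl
      omega
    calc L * J + (K + 1) * r ^ 7 ≤ 2 * r ^ 9 * r ^ 5 + r ^ 7 * r ^ 7 :=
          Nat.add_le_add_left (Nat.mul_le_mul_right _ h5) _
      _ = 3 * r ^ 14 := by ring
  have hne : Nonempty (Vt J L K) := by
    have h5 : 0 < Fintype.card (Vt J L K) := lt_of_lt_of_le (pow_pos (by omega) 7) hcard1
    exact Fintype.card_pos_iff.1 h5
  refine ⟨Vt J L K, inferInstance, GR J L K, r ^ 7, Nat.one_le_pow _ _ (by omega), hcard1, hcl,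
    exists_threshold _, ?_⟩
  intro p hp
  obtain ⟨hp0, hp1, hp2⟩ := hp
  -- the threshold is less than `r ^ (-4)`
  have hlt : p * (r : ℝ) ^ 4 < 1 := by
    by_contra hcon
    push Not at hcon
    have h5 := prob_ge (J := J) (L := L) (K := K) hp0 hp1 (M := M) hM1 rfl
    have h6 : (1 - p ^ 2) ^ M ≤ Real.exp (-(r : ℝ)) := by
      have h7 : 1 - p ^ 2 ≤ Real.exp (-(p ^ 2)) := Real.one_sub_le_exp_neg _
      have h8 : 0 ≤ 1 - p ^ 2 := by nlinarith
      calc (1 - p ^ 2) ^ M ≤ Real.exp (-(p ^ 2)) ^ M := pow_le_pow_left₀ h8 h7 M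
        _ = Real.exp (-((M : ℝ) * p ^ 2)) := by
            rw [← Real.exp_nat_mul]; congr 1; ring
        _ ≤ Real.exp (-(r : ℝ)) := by
            apply Real.exp_le_exp.2
            apply neg_le_neg
            have h9 : (M : ℝ) = (r : ℝ) ^ 9 := by
              show ((r ^ 9 : ℕ) : ℝ) = _
              push_cast; rfl
            rw [h9]
            have h10 : (r : ℝ) ^ 9 * p ^ 2 = r * (p * (r : ℝ) ^ 4) ^ 2 := by ring
            rw [h10]
            have h11 : 1 ≤ (p * (r : ℝ) ^ 4) ^ 2 := one_le_pow₀ hcon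
            nlinarith
    have h7 : (1 - p) ^ J ≤ Real.exp (-(r : ℝ)) := by
      have h7 : 1 - p ≤ Real.exp (-p) := Real.one_sub_le_exp_neg _
      have h8 : 0 ≤ 1 - p := by linarith
      calc (1 - p) ^ J ≤ Real.exp (-p) ^ J := pow_le_pow_left₀ h8 h7 J
        _ = Real.exp (-((J : ℝ) * p)) := by
            rw [← Real.exp_nat_mul]; congr 1; ring
        _ ≤ Real.exp (-(r : ℝ)) := by
            apply Real.exp_le_exp.2
            apply neg_le_neg
            have h9 : (J : ℝ) = (r : ℝ) ^ 5 := by
              show ((r ^ 5 : ℕ) : ℝ) = _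
              push_cast; rfl
            rw [h9]
            have h10 : (r : ℝ) ^ 5 * p = r * (p * (r : ℝ) ^ 4) := by ring
            rw [h10]
            nlinarith
    have h8 : (J : ℝ) * (1 - p ^ 2) ^ M ≤ (r : ℝ) ^ 5 * Real.exp (-(r : ℝ)) := by
      have h9 : (J : ℝ) = (r : ℝ) ^ 5 := by
        show ((r ^ 5 : ℕ) : ℝ) = _
        push_cast; rfl
      rw [h9]
      exact mul_le_mul_of_nonneg_left h6 (by positivity)
    have h9 : (K : ℝ) * (1 - p) ^ J ≤ (r : ℝ) ^ 7 * Real.exp (-(r : ℝ)) := by
      have h10 : (K : ℝ) ≤ (r : ℝ) ^ 7 := by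
        have : K ≤ r ^ 7 := by
          have : J + K = r ^ 7 := hJK
          omega
        exact_mod_cast this
      exact mul_le_mul h10 h7 (pow_nonneg (by linarith) _) (by positivity)
    rw [hp2] at h5
    linarith
  have hn : (0 : ℝ) < Fintype.card (Vt J L K) := by
    exact_mod_cast lt_of_lt_of_le (pow_pos (by omega : 0 < r) 7) hcard1
  have hn2 : (Fintype.card (Vt J L K) : ℝ) ≤ 3 * (r : ℝ) ^ 14 := by exact_mod_cast hcard2
  -- compare
  have hsq : 1 / (r : ℝ) ^ 4 ≤ c * Real.sqrt (((r ^ 7 : ℕ) : ℝ) / (Fintype.card (Vt J L K) : ℝ)) := by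
    have h5 : (1 / (r : ℝ) ^ 4 / c) ≤
        Real.sqrt (((r ^ 7 : ℕ) : ℝ) / (Fintype.card (Vt J L K) : ℝ)) := by
      apply Real.le_sqrt_of_sq_le
      rw [le_div_iff₀ hn]
      have h6 : (1 / (r : ℝ) ^ 4 / c) ^ 2 = 1 / ((r : ℝ) ^ 8 * c ^ 2) := by
        field_simp
      rw [h6]
      push_cast
      have h7 : 3 ≤ (r : ℝ) * c ^ 2 := by
        rwa [div_le_iff₀ (by positivity)] at h3
      calc 1 / ((r : ℝ) ^ 8 * c ^ 2) * (Fintype.card (Vt J L K) : ℝ)
          ≤ 1 / ((r : ℝ) ^ 8 * c ^ 2) * (3 * (r : ℝ) ^ 14) :=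
            mul_le_mul_of_nonneg_left hn2 (by positivity)
        _ ≤ 1 / ((r : ℝ) ^ 8 * c ^ 2) * ((r : ℝ) * c ^ 2 * (r : ℝ) ^ 14) := by
            refine mul_le_mul_of_nonneg_left ?_ (by positivity)
            exact mul_le_mul_of_nonneg_right h7 (by positivity)
        _ = (r : ℝ) ^ 7 := by
            field_simp
    rw [div_le_iff₀ hc] at h5
    linarith
  refine lt_of_lt_of_le ?_ hsq
  rw [lt_div_iff₀ (by positivity)]
  exact hlt

end Pool.Agent.Results.MP_4451bf_co.SmallThreshold
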